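import Mathlib
import Pool.Agent.Y817.ISO.Stm
import Pool.Agent.Helper694.CS.J_hnn_tf

/-!
The tower of HNN extensions (project ISO).
-/

set_option autoImplicit false

namespace Pool.Agent.Y48.ISO.Tower

open Pool.Agent.Y817.ISO HNNExtension

/-! ### General facts -/

theorem hnnTF {G : Type} [Group G] {A B : Subgroup G} (φ : A ≃* B) (h : TF G) :
    TF (HNNExtension G A B φ) := by
  intro g hg
  by_contra hne
  exact Pool.CS.hnn_tf φ (fun k hk hk' => hk (h k hk')) g hne hg

theorem hnnClosure {G : Type} [Group G] {A B : Subgroup G} (φ : A ≃* B) :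
    Subgroup.closure (Set.range (of : G →* HNNExtension G A B φ) ∪
      {(t : HNNExtension G A B φ)}) = ⊤ := by
  rw [eq_top_iff]
  intro g _
  induction g using HNNExtension.induction_on with
  | of g => exact Subgroup.subset_closure (Or.inl ⟨g, rfl⟩)
  | t => exact Subgroup.subset_closure (Or.inr rfl)
  | mul x y hx hy => exact Subgroup.mul_mem _ (hx trivial) (hy trivial)
  | inv x hx => exact Subgroup.inv_mem _ (hx trivial)

theorem ceComm {G : Type} [Group G] {S : Subgroup G} {a : G} (ha : a ∈ S) :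
    Commute (t : CE G S) (of a) :=
  t_mul_of (φ := MulEquiv.refl S) ⟨a, ha⟩

theorem ceLift {G : Type} [Group G] {S : Subgroup G} {M : Type} [Group M] (f : G →* M) (x : M)
    (h : ∀ a ∈ S, Commute x (f a)) :
    ∃ Φ : CE G S →* M, (∀ a, Φ (of a) = f a) ∧ Φ t = x :=
  ⟨lift f x (fun a => h a a.2), fun a => lift_of f x _ a, lift_t f x _⟩

theorem comm_closure {G H : Type} [Group G] [Group H] (f : G →* H) (x : H) (s : Set G)
    (h : ∀ a ∈ s, Commute x (f a)) : ∀ a ∈ Subgroup.closure s, Commute x (f a) := by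
  have h1 : Subgroup.closure s ≤ (Subgroup.centralizer {x}).comap f := by
    rw [Subgroup.closure_le]
    intro a ha
    rw [SetLike.mem_coe, Subgroup.mem_comap, Subgroup.mem_centralizer_singleton_iff]
    exact (h a ha).symm
  intro a ha
  have h2 := h1 ha
  rw [Subgroup.mem_comap, Subgroup.mem_centralizer_singleton_iff] at h2
  exact (show Commute (f a) x from h2).symm

/-- Ascending extension. -/
theorem asc (G : Type) [Group G] (ψ : G →* G) (hψ : Function.Injective ψ) :
    ∃ (H : Type) (_ : Group H) (ι : G →* H) (u : H), Function.Injective ι ∧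
      (∀ a, u⁻¹ * ι a * u = ι (ψ a)) ∧ (TF G → TF H) ∧
      Subgroup.closure (Set.range ι ∪ {u}) = ⊤ ∧
      ∀ (M : Type) [Group M] (f : G →* M) (u' : M), (∀ a, u'⁻¹ * f a * u' = f (ψ a)) →
        ∃ Φ : H →* M, (∀ a, Φ (ι a) = f a) ∧ Φ u = u' := by
  let e : (⊤ : Subgroup G) ≃* ψ.range := Subgroup.topEquiv.trans (MonoidHom.ofInjective hψ)
  have he : ∀ a : (⊤ : Subgroup G), (e a : G) = ψ a := fun a => rfl
  refine ⟨HNNExtension G ⊤ ψ.range e, inferInstance, of, t⁻¹, of_injective e, ?_, hnnTF e, ?_, ?_⟩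
  · intro a
    have h := t_mul_of (φ := e) (⟨a, Subgroup.mem_top a⟩ : (⊤ : Subgroup G))
    rw [he] at h
    rw [inv_inv]
    change t * of a = of (ψ a) * t at h
    rw [h, mul_inv_cancel_right]
  · rw [← hnnClosure e]
    apply le_antisymm
    · rw [Subgroup.closure_le]
      rintro x (hx | hx)
      · exact Subgroup.subset_closure (Or.inl hx)
      · rw [Set.mem_singleton_iff] at hx
        rw [hx]
        exact Subgroup.inv_mem _ (Subgroup.subset_closure (Or.inr rfl))
    · rw [Subgroup.closure_le]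
      rintro x (hx | hx)
      · exact Subgroup.subset_closure (Or.inl hx)
      · rw [Set.mem_singleton_iff] at hx
        rw [hx]
        have := Subgroup.inv_mem _ (Subgroup.subset_closure (k := Set.range
          (of : G →* HNNExtension G ⊤ ψ.range e) ∪ {(t : HNNExtension G ⊤ ψ.range e)⁻¹})
          (Or.inr rfl))
        rwa [inv_inv] at this
  · intro M _ f u' h
    refine ⟨lift f u'⁻¹ ?_, fun a => lift_of f _ _ a, ?_⟩
    · intro a
      rw [he, ← h a, inv_mul_cancel_left_aux]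
    · rw [map_inv, lift_t, inv_inv]
where
  inv_mul_cancel_left_aux {M : Type} [Group M] {u x : M} : u⁻¹ * x * u * u⁻¹ = u⁻¹ * x := by
    group

theorem pow_conj {G : Type} [Group G] {z u : G} (h : u⁻¹ * z * u = z ^ 2) (N : ℕ) :
    (u ^ N)⁻¹ * z ^ 2 * u ^ N = z ^ (2 ^ (N + 1)) := by
  induction N with
  | zero => simp
  | succ N ih =>
    have h1 : (u ^ (N + 1))⁻¹ * z ^ 2 * u ^ (N + 1) = u⁻¹ * ((u ^ N)⁻¹ * z ^ 2 * u ^ N) * u := by
      rw [pow_succ, mul_inv_rev]; group
    have h2 : ∀ k : ℕ, u⁻¹ * z ^ k * u = (u⁻¹ * z * u) ^ k := by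
      intro k
      have := conj_pow (i := k) (a := u⁻¹) (b := z)
      rw [inv_inv] at this
      exact this.symm
    rw [h1, ih, h2, h, ← pow_mul]
    congr 1
    ring

/-- The main computation. -/
theorem comp {G : Type} [Group G] {a b z u : G} (hau : Commute a u) (hbu : Commute b u)
    (hza : Commute z a) (huz : u⁻¹ * z * u = z ^ 2) (N : ℕ) :
    ((a * u) ^ N)⁻¹ * (b⁻¹ * z ^ 2 * b) * (a * u) ^ N =
      (a ^ (-(N : ℤ)) * b * a ^ (N : ℤ))⁻¹ * z ^ (2 ^ (N + 1)) *
        (a ^ (-(N : ℤ)) * b * a ^ (N : ℤ)) := by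
  have e1 : (a * u) ^ N = a ^ N * u ^ N := hau.mul_pow N
  have c1 : Commute (a ^ N) (u ^ N) := hau.pow_pow N N
  have c2 : Commute b (u ^ N) := hbu.pow_right N
  have c3 : Commute (a ^ N) (z ^ (2 ^ (N + 1))) := hza.symm.pow_pow _ _
  have h4 := pow_conj huz N
  rw [e1, zpow_neg, zpow_natCast]
  have h5 : (a ^ N * u ^ N)⁻¹ * (b⁻¹ * z ^ 2 * b) * (a ^ N * u ^ N) =
      (a ^ N)⁻¹ * b⁻¹ * ((u ^ N)⁻¹ * z ^ 2 * u ^ N) * b * a ^ N := by
    have d1 : b * (a ^ N * u ^ N) = u ^ N * (b * a ^ N) := by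
      rw [c1.eq, ← mul_assoc, c2.eq, mul_assoc]
    have d2 : (a ^ N * u ^ N)⁻¹ * b⁻¹ = (a ^ N)⁻¹ * b⁻¹ * (u ^ N)⁻¹ := by
      rw [← mul_inv_rev, d1, mul_inv_rev, mul_inv_rev]
    calc (a ^ N * u ^ N)⁻¹ * (b⁻¹ * z ^ 2 * b) * (a ^ N * u ^ N)
        = ((a ^ N * u ^ N)⁻¹ * b⁻¹) * z ^ 2 * (b * (a ^ N * u ^ N)) := by group
      _ = _ := by rw [d1, d2]; group
  rw [h5, h4]
  have h6 : a ^ N * z ^ (2 ^ (N + 1)) * (a ^ N)⁻¹ = z ^ (2 ^ (N + 1)) := by
    rw [c3.eq, mul_inv_cancel_right]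
  calc (a ^ N)⁻¹ * b⁻¹ * z ^ (2 ^ (N + 1)) * b * a ^ N
      = (a ^ N)⁻¹ * b⁻¹ * (a ^ N * z ^ (2 ^ (N + 1)) * (a ^ N)⁻¹) * b * a ^ N := by rw [h6]
    _ = _ := by group

theorem map_s {K M : Type} [Group K] [Group M] (f : K →* M) (x t : K) (n : ℤ) :
    f (s x t n) = (f x) ^ (-n) * f t * (f x) ^ n := by
  unfold s
  rw [map_mul, map_mul, map_zpow, map_zpow]

/-! ### The bottom of the tower -/

/-- The group `Γ`. -/
theorem bottom (h3 : StmSquare) (K : Type) [Group K] (Q : Subgroup K) (hTF : TF K) :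
    ∃ (Γ : Type) (_ : Group Γ) (k : K →* Γ) (z u : Γ), TF Γ ∧ Function.Injective k ∧
      (∀ q ∈ Q, Commute z (k q)) ∧ (∀ a, Commute u (k a)) ∧ u⁻¹ * z * u = z ^ 2 ∧
      (∀ c : ℤ, z ^ c = 1 → c = 0) ∧
      Subgroup.closure (Set.range k ∪ {z, u}) = ⊤ ∧
      ∀ (M : Type) [Group M] (f : K →* M) (z' u' : M), (∀ q ∈ Q, Commute z' (f q)) →
        (∀ a, Commute u' (f a)) → u'⁻¹ * z' * u' = z' ^ 2 →
        ∃ Φ : Γ →* M, (∀ a, Φ (k a) = f a) ∧ Φ z = z' ∧ Φ u = u' := by
  obtain ⟨ψ, hψi, hψk, hψt⟩ := h3 K Q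
  obtain ⟨Γ, _, ι, u, hιi, hιu, hιTF, hιcl, hιlift⟩ := asc (CE K Q) ψ hψi
  refine ⟨Γ, inferInstance, ι.comp of, ι t, u, hιTF (hnnTF _ hTF), hιi.comp (of_injective (MulEquiv.refl Q)),
    ?_, ?_, ?_, ?_, ?_, ?_⟩
  · intro q hq
    exact (ceComm hq).map ι
  · intro a
    have h := hιu (of a)
    rw [hψk] at h
    rw [MonoidHom.comp_apply]
    have h2 : ι (of a) * u = u * ι (of a) := by
      rw [← h]
      rw [h]
      rw [mul_assoc, inv_mul_eq_iff_eq_mul] at h
      exact h
    exact h2.symm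
  · rw [hιu, hψt, map_pow]
  · intro c hc
    rw [← map_zpow, ← map_one ι] at hc
    have hc' := hιi hc
    obtain ⟨Φ, h1, h2⟩ := ceLift (S := Q) (1 : K →* Multiplicative ℤ) (Multiplicative.ofAdd 1)
      (fun a _ => Commute.all _ _)
    have h4 := congrArg Φ hc'
    have h5 : (Multiplicative.ofAdd (1 : ℤ)) ^ c = 1 := by
      rw [← h2, ← map_zpow, h4, map_one]
    have h6 := congrArg Multiplicative.toAdd h5
    rw [← ofAdd_zsmul] at h6
    simpa using h6
  · rw [eq_top_iff, ← hιcl, Subgroup.closure_le]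
    rintro x (⟨y, rfl⟩ | hx)
    · have h1 : Subgroup.closure (Set.range (of : K →* CE K Q) ∪ {(t : CE K Q)}) ≤
          (Subgroup.closure (Set.range (ι.comp of) ∪ {ι t, u})).comap ι := by
        rw [Subgroup.closure_le]
        rintro w (⟨a, rfl⟩ | hw)
        · exact Subgroup.subset_closure (Or.inl ⟨a, rfl⟩)
        · rw [Set.mem_singleton_iff] at hw
          rw [hw]
          exact Subgroup.subset_closure (Or.inr (Or.inl rfl))
      have h2 : y ∈ Subgroup.closure (Set.range (of : K →* CE K Q) ∪ {(t : CE K Q)}) := by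
        rw [hnnClosure]; trivial
      exact h1 h2
    · rw [Set.mem_singleton_iff] at hx
      rw [hx]
      exact Subgroup.subset_closure (Or.inr (Or.inr rfl))
  · intro M _ f z' u' hz hu huz
    obtain ⟨f1, hf1, hf1t⟩ := ceLift (S := Q) f z' hz
    obtain ⟨Φ, hΦ, hΦu⟩ := hιlift M f1 u' (by
      have h1 : (MulAut.conj u'⁻¹).toMonoidHom.comp f1 = f1.comp ψ := by
        apply HNNExtension.hom_ext
        · ext a
          have e : (MulAut.conj u'⁻¹).toMonoidHom.comp f1 (of a) = u'⁻¹ * f1 (of a) * u' := by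
            simp
          change (MulAut.conj u'⁻¹).toMonoidHom.comp f1 (of a) = f1 (ψ (of a))
          rw [e, hψk, hf1, mul_assoc, ← (hu a).eq, inv_mul_cancel_left]
        · have e : (MulAut.conj u'⁻¹).toMonoidHom.comp f1 t = u'⁻¹ * f1 t * u' := by
            simp
          rw [e, hf1t, huz, MonoidHom.comp_apply, hψt, map_pow, hf1t]
      intro a
      have h2 := DFunLike.congr_fun h1 a
      have e : (MulAut.conj u'⁻¹).toMonoidHom.comp f1 a = u'⁻¹ * f1 a * u' := by
        simp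
      rw [e] at h2
      exact h2)
    refine ⟨Φ, fun a => ?_, ?_, hΦu⟩
    · rw [MonoidHom.comp_apply, hΦ, hf1]
    · rw [hΦ, hf1t]

theorem t (h1 : StmLemA) (h2 : StmSubHNN) (h3 : StmSquare) (h4 : StmGModel) : StmTower := by
  intro K _ Q Rr π x t0 hB
  obtain ⟨Γ, _, k, z, u, hTF, hki, hzq, huk, huz, hz0, hcl, hlift⟩ := bottom h3 K Q hB.tf
  -- the subgroups
  set Sg : Subgroup Γ := Subgroup.closure {k x * u, (k t0)⁻¹ * z ^ 2 * k t0} with hSg
  set Mm : Subgroup Γ := Subgroup.closure (Set.range k ∪ {z}) with hMm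
  set L : Subgroup Γ := Subgroup.closure (((Sg ⊓ Mm : Subgroup Γ) : Set Γ) ∪ k '' Rr) with hL
  have hkM : ∀ a, k a ∈ Mm := fun a => Subgroup.subset_closure (Or.inl ⟨a, rfl⟩)
  have hzM : z ∈ Mm := Subgroup.subset_closure (Or.inr rfl)
  have hLM : L ≤ Mm := by
    rw [hL, Subgroup.closure_le]
    rintro a (ha | ⟨r, _, rfl⟩)
    · exact ha.2
    · exact hkM r
  set Om : Subgroup (CE Γ Sg) := Subgroup.closure
    ((fun g : Γ => (HNNExtension.t * of g * HNNExtension.t⁻¹ : CE Γ Sg)) '' Mm ∪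
      (fun g : K => (of (k g) : CE Γ Sg)) '' Rr) with hOm
  have hOmL : Om ≤ Subgroup.closure
      ((fun g : Γ => (HNNExtension.t * of g * HNNExtension.t⁻¹ : CE Γ Sg)) '' Mm ∪
        (fun g : Γ => (of g : CE Γ Sg)) '' L) := by
    rw [hOm]
    apply Subgroup.closure_mono
    rintro a (ha | ⟨r, hr, rfl⟩)
    · exact Or.inl ha
    · exact Or.inr ⟨k r, Subgroup.subset_closure (Or.inr ⟨r, hr, rfl⟩), rfl⟩
  have hM1 : ∀ g ∈ Mm, (HNNExtension.t * of g * HNNExtension.t⁻¹ : CE Γ Sg) ∈ Om :=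
    fun g hg => Subgroup.subset_closure (Or.inl ⟨g, hg, rfl⟩)
  have hR1 : ∀ r ∈ Rr, (of (k r) : CE Γ Sg) ∈ Om :=
    fun r hr => Subgroup.subset_closure (Or.inr ⟨r, hr, rfl⟩)
  have s1 : k x * u ∈ Sg := Subgroup.subset_closure (Or.inl rfl)
  have s2 : (k t0)⁻¹ * z ^ 2 * k t0 ∈ Sg := Subgroup.subset_closure (Or.inr rfl)
  let o1 : Γ →* CE Γ Sg := of
  let o2 : CE Γ Sg →* CE (CE Γ Sg) Om := of
  have hmap : ∀ a b : Γ, Commute a b → Commute (o2 (o1 a)) (o2 (o1 b)) :=
    fun a b h => (h.map o1).map o2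
  refine ⟨CE (CE Γ Sg) Om, inferInstance, (o2.comp o1).comp k, o2 (o1 z), o2 (o1 u),
    o2 HNNExtension.t, HNNExtension.t, hnnTF _ (hnnTF _ hTF), ?_, ?_, ?_, ?_⟩
  · -- relations
    refine ⟨fun q hq => hmap _ _ (hzq q hq), fun a => hmap _ _ (huk a), ?_, ?_, ?_, ?_, ?_, ?_⟩
    · have := congrArg (fun y => o2 (o1 y)) huz
      simpa only [map_mul, map_inv, map_pow] using this
    · have := (ceComm s1).map o2
      rwa [show (of (k x * u) : CE Γ Sg) = o1 (k x) * o1 u from map_mul _ _ _, map_mul] at this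
    · have h := (ceComm s2).map o2
      have e : o2 (of ((k t0)⁻¹ * z ^ 2 * k t0)) =
          (o2 (o1 (k t0)))⁻¹ * o2 (o1 z) ^ 2 * o2 (o1 (k t0)) := by
        change o2 (o1 _) = _
        simp only [map_mul, map_inv, map_pow]
      rw [e] at h
      exact h
    · intro a
      have h := ceComm (hM1 (k a) (hkM a))
      have e : (of (HNNExtension.t * of (k a) * HNNExtension.t⁻¹) : CE (CE Γ Sg) Om) =
          o2 HNNExtension.t * o2 (o1 (k a)) * (o2 HNNExtension.t)⁻¹ := by
        change o2 _ = _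
        simp only [map_mul, map_inv]
        rfl
      rw [e] at h
      exact h
    · have h := ceComm (hM1 z hzM)
      have e : (of (HNNExtension.t * of z * HNNExtension.t⁻¹) : CE (CE Γ Sg) Om) =
          o2 HNNExtension.t * o2 (o1 z) * (o2 HNNExtension.t)⁻¹ := by
        change o2 _ = _
        simp only [map_mul, map_inv]
        rfl
      rw [e] at h
      exact h
    · intro r hr
      exact ceComm (hR1 r hr)
  · -- generation
    set S : Subgroup (CE (CE Γ Sg) Om) := Subgroup.closure (Set.range ((o2.comp o1).comp k) ∪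
      {o2 (o1 z), o2 (o1 u), o2 HNNExtension.t, HNNExtension.t}) with hS
    have g1 : ∀ a : Γ, o2 (o1 a) ∈ S := by
      have h5 : Subgroup.closure (Set.range k ∪ {z, u}) ≤ S.comap (o2.comp o1) := by
        rw [Subgroup.closure_le]
        rintro w (⟨a, rfl⟩ | hw)
        · exact Subgroup.subset_closure (Or.inl ⟨a, rfl⟩)
        · rcases hw with rfl | hw
          · exact Subgroup.subset_closure (Or.inr (Or.inl rfl))
          · rw [Set.mem_singleton_iff] at hw
            rw [hw]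
            exact Subgroup.subset_closure (Or.inr (Or.inr (Or.inl rfl)))
      intro a
      have : a ∈ Subgroup.closure (Set.range k ∪ {z, u}) := by rw [hcl]; trivial
      exact h5 this
    have g2 : ∀ a : CE Γ Sg, o2 a ∈ S := by
      have h5 : Subgroup.closure (Set.range (of : Γ →* CE Γ Sg) ∪ {(HNNExtension.t : CE Γ Sg)}) ≤
          S.comap o2 := by
        rw [Subgroup.closure_le]
        rintro w (⟨a, rfl⟩ | hw)
        · exact g1 a
        · rw [Set.mem_singleton_iff] at hw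
          rw [hw]
          exact Subgroup.subset_closure (Or.inr (Or.inr (Or.inr (Or.inl rfl))))
      intro a
      have : a ∈ Subgroup.closure
          (Set.range (of : Γ →* CE Γ Sg) ∪ {(HNNExtension.t : CE Γ Sg)}) := by
        rw [hnnClosure]; trivial
      exact h5 this
    rw [eq_top_iff, ← hnnClosure (MulEquiv.refl Om), Subgroup.closure_le]
    rintro w (⟨a, rfl⟩ | hw)
    · exact g2 a
    · rw [Set.mem_singleton_iff] at hw
      rw [hw]
      exact Subgroup.subset_closure (Or.inr (Or.inr (Or.inr (Or.inr rfl))))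
  · -- universal property
    intro H _ φ' z' u' v' τ' hR
    obtain ⟨Φ1, e1, e1z, e1u⟩ := hlift H φ' z' u' hR.zq hR.uk hR.uz
    obtain ⟨Φ2, e2, e2v⟩ := ceLift (S := Sg) Φ1 v' (by
      apply comm_closure
      rintro a (rfl | ha)
      · rw [map_mul, e1, e1u]; exact hR.vx
      · rw [Set.mem_singleton_iff] at ha
        rw [ha]
        simp only [map_mul, map_inv, map_pow, e1, e1z]
        exact hR.vt)
    obtain ⟨Φ3, e3, e3t⟩ := ceLift (S := Om) Φ2 τ' (by
      apply comm_closure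
      rintro a (⟨g, hg, rfl⟩ | ⟨r, hr, rfl⟩)
      · have h5 := comm_closure ((MulAut.conj v').toMonoidHom.comp Φ1) τ' (Set.range k ∪ {z}) (by
          rintro w (⟨b, rfl⟩ | hw)
          · have e : (MulAut.conj v').toMonoidHom.comp Φ1 (k b) = v' * φ' b * v'⁻¹ := by
              simp [MulAut.conj_apply, e1]
            rw [e]
            exact hR.τk b
          · rw [Set.mem_singleton_iff] at hw
            have e : (MulAut.conj v').toMonoidHom.comp Φ1 z = v' * z' * v'⁻¹ := by
              simp [MulAut.conj_apply, e1z]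
            rw [hw, e]
            exact hR.τz) g hg
        have e : (MulAut.conj v').toMonoidHom.comp Φ1 g = v' * Φ1 g * v'⁻¹ := by
          simp
        rw [e] at h5
        simp only [map_mul, map_inv, e2, e2v]
        exact h5
      · simp only [e2, e1]
        exact hR.τr r hr)
    refine ⟨Φ3, fun a => ?_, ?_, ?_, ?_, e3t⟩
    · change Φ3 (of (of (k a))) = _
      rw [e3, e2, e1]
    · change Φ3 (of (of z)) = _
      rw [e3, e2, e1z]
    · change Φ3 (of (of u)) = _
      rw [e3, e2, e1u]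
    · change Φ3 (of HNNExtension.t) = _
      rw [e3, e2v]
  · -- the subgroup
    intro n _ hn g hg hm
    set y : Γ := (k (s x t0 n))⁻¹ * z * k (s x t0 n) with hy
    have hypow : ∀ c : ℤ, y ^ c = (k (s x t0 n))⁻¹ * z ^ c * k (s x t0 n) := by
      intro c
      have := conj_zpow (i := c) (a := (k (s x t0 n))⁻¹) (b := z)
      rwa [inv_inv] at this
    have hy0 : ∀ c : ℤ, y ^ c = 1 → c = 0 := by
      intro c hc
      rw [hypow] at hc
      apply hz0
      have : z ^ c = k (s x t0 n) * ((k (s x t0 n))⁻¹ * z ^ c * k (s x t0 n)) *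
          (k (s x t0 n))⁻¹ := by group
      rw [this, hc]
      group
    have hfwd : ∀ c : ℤ, o1 y ^ c ∈ Om → g ∣ c := by
      intro c hc
      have h5 : y ^ c ∈ L := by
        apply h1 Γ Sg Mm L (fun a ha => Subgroup.subset_closure (Or.inl ha)) hLM
        have := hOmL hc
        rwa [← map_zpow] at this
      obtain ⟨M, _, φ, zM, uM, m1, m2, m3, m4⟩ := h4 K Q Rr π x t0 hB
      obtain ⟨Ψ, p1, p2, p3⟩ := hlift M φ zM uM m1 m2 m3
      refine m4 n hn c ?_ g hg
      have h6 : L ≤ (Subgroup.closure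
        (((Subgroup.closure {φ x * uM, (φ t0)⁻¹ * zM ^ 2 * φ t0} ⊓
          Subgroup.closure (Set.range φ ∪ {zM}) : Subgroup M) : Set M) ∪ φ '' Rr)).comap Ψ := by
        rw [hL, Subgroup.closure_le]
        rintro a (ha | ⟨r, hr, rfl⟩)
        · refine Subgroup.subset_closure (Or.inl ⟨?_, ?_⟩)
          · have h7 : Sg ≤ (Subgroup.closure {φ x * uM, (φ t0)⁻¹ * zM ^ 2 * φ t0}).comap Ψ := by
              rw [hSg, Subgroup.closure_le]
              rintro b (rfl | hb)
              · apply Subgroup.subset_closure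
                left
                rw [map_mul, p1, p3]
              · rw [Set.mem_singleton_iff] at hb
                rw [hb]
                apply Subgroup.subset_closure
                right
                simp only [map_mul, map_inv, map_pow, p1, p2]
                rfl
            exact h7 ha.1
          · have h7 : Mm ≤ (Subgroup.closure (Set.range φ ∪ {zM})).comap Ψ := by
              rw [hMm, Subgroup.closure_le]
              rintro b (⟨b, rfl⟩ | hb)
              · exact Subgroup.subset_closure (Or.inl ⟨b, (p1 b).symm⟩)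
              · rw [Set.mem_singleton_iff] at hb
                rw [hb]
                exact Subgroup.subset_closure (Or.inr p2)
            exact h7 ha.2
        · exact Subgroup.subset_closure (Or.inr ⟨r, hr, (p1 r).symm⟩)
      have h8 := h6 h5
      rw [Subgroup.mem_comap, map_zpow, hy] at h8
      simpa only [map_mul, map_inv, p1, p2] using h8
    have hbwd : o1 y ^ g ∈ Om := by
      obtain ⟨m, ⟨ρ, hρ, hsn⟩, rfl⟩ := hm
      have hm0 : 0 ≤ m := hn m ⟨ρ, hρ, hsn⟩
      obtain ⟨N, rfl⟩ : ∃ N : ℕ, m = N := ⟨m.toNat, by omega⟩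
      rw [Int.toNat_natCast]
      set w : Γ := (k (s x t0 N))⁻¹ * z ^ (2 ^ (N + 1)) * k (s x t0 N) with hw
      have hc := comp (a := k x) (b := k t0) (huk x).symm (huk t0).symm (hzq x hB.x_mem) huz N
      rw [← map_s, ← hw] at hc
      have w1 : w ∈ Sg := by
        rw [← hc]
        exact Sg.mul_mem (Sg.mul_mem (Sg.inv_mem (Sg.pow_mem s1 N)) s2) (Sg.pow_mem s1 N)
      have w2 : w ∈ Mm := Mm.mul_mem (Mm.mul_mem (Mm.inv_mem (hkM _)) (Mm.pow_mem hzM _)) (hkM _)
      have w3 : o1 w ∈ Om := by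
        have h5 := hM1 w w2
        have h6 : (HNNExtension.t * of w * HNNExtension.t⁻¹ : CE Γ Sg) = of w := by
          rw [(ceComm w1).eq, mul_inv_cancel_right]
        rw [h6] at h5
        exact h5
      have w4 : y ^ ((2 : ℤ) ^ (N + 1)) = k ρ * w * (k ρ)⁻¹ := by
        have c1 : Commute (z ^ (2 ^ (N + 1))) (k ρ) := (hzq ρ (hB.le hρ)).pow_left _
        have c2 : (k ρ)⁻¹ * z ^ (2 ^ (N + 1)) * k ρ = z ^ (2 ^ (N + 1)) := by
          rw [mul_assoc, c1.eq, inv_mul_cancel_left]
        rw [hypow, hsn, map_mul, map_mul, map_inv, hw]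
        have e2 : z ^ ((2 : ℤ) ^ (N + 1)) = z ^ (2 ^ (N + 1)) := by
          rw [← zpow_natCast]; push_cast; rfl
        rw [e2]
        calc (k ρ * k (s x t0 ↑N) * (k ρ)⁻¹)⁻¹ * z ^ 2 ^ (N + 1) *
              (k ρ * k (s x t0 ↑N) * (k ρ)⁻¹)
            = k ρ * (k (s x t0 ↑N))⁻¹ * ((k ρ)⁻¹ * z ^ 2 ^ (N + 1) * k ρ) *
              k (s x t0 ↑N) * (k ρ)⁻¹ := by group
          _ = _ := by rw [c2]; group
      rw [← map_zpow, w4, map_mul, map_mul, map_inv]
      exact Om.mul_mem (Om.mul_mem (hR1 ρ hρ) w3) (Om.inv_mem (hR1 ρ hρ))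
    -- the embedding
    let α : Multiplicative ℤ →* CE Γ Sg := zpowersHom (CE Γ Sg) (o1 y)
    have hα : ∀ a, α a = o1 y ^ (Multiplicative.toAdd a) := fun a => rfl
    obtain ⟨Φ, hΦi, hΦ, hΦt⟩ := h2 (Multiplicative ℤ) (CE Γ Sg) α
      (Subgroup.zpowers (Multiplicative.ofAdd g)) Om (by
        rw [injective_iff_map_eq_one]
        intro a ha
        rw [hα, ← map_zpow, ← map_one o1] at ha
        have h5 := hy0 _ (of_injective (MulEquiv.refl Sg) ha)
        exact Multiplicative.toAdd.injective h5) (by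
        intro a
        rw [hα, Subgroup.mem_zpowers_iff]
        constructor
        · intro h5
          obtain ⟨c, hc⟩ := hfwd _ h5
          refine ⟨c, ?_⟩
          rw [← ofAdd_zsmul]
          apply Multiplicative.toAdd.injective
          rw [toAdd_ofAdd, hc, smul_eq_mul, mul_comm]
        · rintro ⟨c, rfl⟩
          rw [← ofAdd_zsmul, toAdd_ofAdd, smul_eq_mul, mul_comm, zpow_mul]
          exact Om.zpow_mem hbwd c)
    set q : CE (CE Γ Sg) Om := o2 (o1 (k (s x t0 n))) with hq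
    refine ⟨(MulAut.conj q).toMonoidHom.comp Φ, (MulAut.conj q).injective.comp hΦi, ?_, ?_⟩
    · have e : (MulAut.conj q).toMonoidHom.comp Φ (of (Multiplicative.ofAdd 1)) =
          q * Φ (of (Multiplicative.ofAdd 1)) * q⁻¹ := by
        simp
      rw [e, hΦ, hα, toAdd_ofAdd, zpow_one, hq]
      change o2 (o1 (k (s x t0 n))) * o2 (o1 y) * (o2 (o1 (k (s x t0 n))))⁻¹ = _
      rw [← map_mul, ← map_mul, ← map_inv, ← map_inv, ← map_mul, ← map_mul, hy]
      congr 2
      group
    · have e : (MulAut.conj q).toMonoidHom.comp Φ HNNExtension.t =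
          q * Φ HNNExtension.t * q⁻¹ := by
        simp
      rw [e, hΦt]
      rfl

end Pool.Agent.Y48.ISO.Tower
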